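import Pool.Agent.H93.SP.Targets

/-!
# HUR3: linear algebra of the rational Hurewicz bound
-/

namespace Pool.Agent.H29.SP.HUR3

open Pool.Agent.H93.SPB
open scoped TensorProduct

/-- HUR3 -/
theorem hur3 : T_HUR3 := by
  classical
  intro G _ V _ _ _ η H
  let gh : Additive G →ₗ[ℤ] (ℚ ⊗[ℤ] Additive G) := TensorProduct.mk ℤ ℚ (Additive G) 1
  let g : G → (ℚ ⊗[ℤ] Additive G) := fun a => gh (Additive.ofMul a)
  have hspan : Submodule.span ℚ (Set.range g) = ⊤ := by
    rw [eq_top_iff]
    rintro w -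
    induction w using TensorProduct.induction_on with
    | zero => exact Submodule.zero_mem _
    | tmul q a =>
      have h1 : q ⊗ₜ[ℤ] a = q • g (Additive.toMul a) := by
        change q ⊗ₜ[ℤ] a = q • ((1 : ℚ) ⊗ₜ[ℤ] a)
        rw [TensorProduct.smul_tmul']
        simp
      rw [h1]
      exact Submodule.smul_mem _ _ (Submodule.subset_span ⟨_, rfl⟩)
    | add x y hx hy => exact Submodule.add_mem _ hx hy
  obtain ⟨b, hb, hb2, hli⟩ := exists_linearIndependent ℚ (Set.range g)
  have hex : ∀ w : b, ∃ a : G, g a = w := fun w => hb w.2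
  choose a ha using hex
  have hη : LinearIndependent ℚ (fun w : b => η (a w)) := by
    rw [linearIndependent_iff']
    intro s c hc
    obtain ⟨D, hD⟩ := IsLocalization.exist_integer_multiples (nonZeroDivisors ℤ) s c
    have hD0 : (D : ℤ) ≠ 0 := nonZeroDivisors.ne_zero D.2
    have hm : ∀ i : b, ∃ m : ℤ, i ∈ s → (m : ℚ) = (D : ℤ) * c i := by
      intro i
      by_cases hi : i ∈ s
      · obtain ⟨m, hm⟩ := hD i hi
        refine ⟨m, fun _ => ?_⟩
        rw [eq_intCast] at hm
        rw [hm, zsmul_eq_mul]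
      · exact ⟨0, fun h => absurd h hi⟩
    choose m hm using hm
    let e := s.equivFin
    have h1 : ∑ j : Fin s.card, (m (e.symm j) : ℚ) • η (a (e.symm j)) = 0 := by
      rw [Equiv.sum_comp e.symm (fun i : s => (m i : ℚ) • η (a i)),
        Finset.sum_coe_sort s (fun i => (m i : ℚ) • η (a i))]
      have h2 : ∀ i ∈ s, (m i : ℚ) • η (a i) = ((D : ℤ) : ℚ) • (c i • η (a i)) := by
        intro i hi
        rw [hm i hi, mul_smul]
      rw [Finset.sum_congr rfl h2, ← Finset.smul_sum, hc, smul_zero]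
    obtain ⟨M, hM, hprod⟩ := H s.card (fun j => a (e.symm j)) (fun j => m (e.symm j)) h1
    have h2 : ∑ j : Fin s.card, (((M : ℤ) * m (e.symm j) : ℤ) : ℚ) • g (a (e.symm j)) = 0 := by
      have h3 := congrArg (fun x => gh (Additive.ofMul x)) hprod
      simp only [ofMul_prod, map_sum, ofMul_zpow, ofMul_one, map_zero, map_zsmul] at h3
      rw [← h3]
      refine Finset.sum_congr rfl fun j _ => ?_
      rw [Int.cast_smul_eq_zsmul]
    have h3 : ∑ i ∈ s, (((M : ℤ) * m i : ℤ) : ℚ) • (i : ℚ ⊗[ℤ] Additive G) = 0 := by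
      rw [← Finset.sum_coe_sort s (fun i => (((M : ℤ) * m i : ℤ) : ℚ) •
        (i : ℚ ⊗[ℤ] Additive G)),
        ← Equiv.sum_comp e.symm (fun i : s => (((M : ℤ) * m i : ℤ) : ℚ) •
          ((i : b) : ℚ ⊗[ℤ] Additive G)), ← h2]
      refine Finset.sum_congr rfl fun j _ => ?_
      rw [ha]
    intro i hi
    have h4 := linearIndependent_iff'.1 hli s _ h3 i hi
    have h5 : m i = 0 := by
      have h6 : (M : ℤ) * m i = 0 := by exact_mod_cast h4
      rcases mul_eq_zero.1 h6 with h7 | h7
      · omega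
      · exact h7
    have h6 := hm i hi
    rw [h5, Int.cast_zero] at h6
    rcases mul_eq_zero.1 h6.symm with h7 | h7
    · exact absurd (by exact_mod_cast h7) hD0
    · exact h7
  have hfin : Finite b := hη.finite
  have : Fintype b := Fintype.ofFinite b
  have hcard : Fintype.card b ≤ Module.finrank ℚ V := hη.fintype_card_le_finrank
  let B : Module.Basis b ℚ (ℚ ⊗[ℤ] Additive G) := Module.Basis.mk hli (by
    rw [Subtype.range_coe, hb2, hspan])
  refine ⟨Module.Finite.of_basis B, ?_⟩
  rw [Module.finrank_eq_card_basis B]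
  exact hcard

end Pool.Agent.H29.SP.HUR3
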