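import Pool.Agent.H93.SP.Targets

/-!
# MN: normalisation of simplicial chains of functions
-/

namespace Pool.Agent.H29.SP.MN

open Pool.Agent.H93.SPB Pool.Agent.H59

section Abstract

theorem split {M : Type*} [AddCommGroup M] (f : ℕ → M) (j t : ℕ) (h0 : ∀ i < j, f i = 0)
    (h01 : f j + f (j + 1) = 0) : ∑ i ∈ Finset.range (j + 2 + t), f i =
        ∑ i ∈ Finset.range t, f (j + 2 + i) := by
  rw [Finset.sum_range_add, Finset.sum_range_succ, Finset.sum_range_succ,
    Finset.sum_eq_zero (fun i hi => h0 i (Finset.mem_range.1 hi)), zero_add, h01, zero_add]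

/-- abstract normalisation -/
theorem norm {X2 X1 X0 : Type*} [AddCommGroup X2] [AddCommGroup X1] [AddCommGroup X0] (k : ℕ)
    (d : ℕ → X2 →+ X1) (d' : ℕ → X1 →+ X0) (s : ℕ → X1 →+ X2) (s' : ℕ → X0 →+ X1)
    (h1 : ∀ i j, i ≤ j → j ≤ k → ∀ w, d' i (d (j + 1) w) = d' j (d i w))
    (h2 : ∀ j, j ≤ k → ∀ u, d j (s j u) = u ∧ d (j + 1) (s j u) = u)
    (h3 : ∀ i j, i < j → j ≤ k → ∀ u, d i (s j u) = s' (j - 1) (d' i u))
    (h4 : ∀ i j, j < i → i ≤ k → ∀ u, d (i + 1) (s j u) = s' j (d' i u))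
    (S : AddSubgroup X2) (hS : ∀ j, j ≤ k → ∀ w ∈ S, s j (d j w) ∈ S)
    (x : X1) (w : X2) (hx : ∀ i, i ≤ k → d' i x = 0) (hw : w ∈ S)
    (hxw : x = ∑ i ∈ Finset.range (k + 2), (-1 : ℤ) ^ i • d i w) :
    ∃ y ∈ S, (∀ i, i ≤ k → d i y = 0) ∧ d (k + 1) y = x := by
  have key : ∀ j, j ≤ k + 1 → ∃ w ∈ S, (∀ i, i < j → d i w = 0) ∧
      x = ∑ i ∈ Finset.range (k + 2), (-1 : ℤ) ^ i • d i w := by
    intro j
    induction j with
    | zero => exact fun _ => ⟨w, hw, fun i hi => absurd hi (Nat.not_lt_zero i), hxw⟩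
    | succ j ih =>
      intro hj
      obtain ⟨w, hw, hd, hx2⟩ := ih (by omega)
      have hjk : j ≤ k := by omega
      obtain ⟨t, ht⟩ : ∃ t, k + 2 = j + 2 + t := ⟨k - j, by omega⟩
      set u := d j w with hu
      have hu0 : ∀ i, i < j → d' i u = 0 := by
        intro i hi
        have e := h1 i (j - 1) (by omega) (by omega) w
        rw [Nat.sub_add_cancel (by omega)] at e
        rw [hu, e, hd i hi, map_zero]
      have hlow : ∀ i, i < j → d i (s j u) = 0 := by
        intro i hi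
        rw [h3 i j hi hjk, hu0 i hi, map_zero]
      -- the relation obtained from `d' j x = 0`
      have hrel : ∑ i ∈ Finset.range t, (-1 : ℤ) ^ (j + 2 + i) • d' (j + 1 + i) u = 0 := by
        have e1 := hx j hjk
        rw [hx2, map_sum, ht, split _ j t] at e1
        · rw [← e1]
          refine Finset.sum_congr rfl fun i hi => ?_
          rw [Finset.mem_range] at hi
          rw [map_zsmul]
          have e2 := h1 j (j + 1 + i) (by omega) (by omega) w
          have e3 : j + 1 + i + 1 = j + 2 + i := by ring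
          rw [e3] at e2
          rw [e2]
        · intro i hi
          rw [hd i hi, smul_zero, map_zero]
        · rw [map_zsmul, map_zsmul, h1 j j le_rfl hjk w, pow_succ]
          simp
      refine ⟨w - s j u, S.sub_mem hw (hS j hjk w hw), ?_, ?_⟩
      · intro i hi
        rcases Nat.lt_succ_iff_lt_or_eq.1 hi with h | h
        · rw [map_sub, hd i h, hlow i h, sub_zero]
        · rw [h, map_sub, (h2 j hjk u).1, sub_self]
      · have hz : ∑ i ∈ Finset.range (k + 2), (-1 : ℤ) ^ i • d i (s j u) = 0 := by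
          rw [ht, split _ j t]
          · have e4 : ∀ i ∈ Finset.range t, (-1 : ℤ) ^ (j + 2 + i) • d (j + 2 + i) (s j u) =
                s' j ((-1 : ℤ) ^ (j + 2 + i) • d' (j + 1 + i) u) := by
              intro i hi
              rw [Finset.mem_range] at hi
              have e2 := h4 (j + 1 + i) j (by omega) (by omega) u
              have e3 : j + 1 + i + 1 = j + 2 + i := by ring
              rw [e3] at e2
              rw [e2, map_zsmul]
            rw [Finset.sum_congr rfl e4, ← map_sum, hrel, map_zero]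
          · intro i hi
            rw [hlow i hi, smul_zero]
          · rw [(h2 j hjk u).1, (h2 j hjk u).2, pow_succ]
            simp
        rw [hx2]
        have e5 : ∀ i ∈ Finset.range (k + 2), (-1 : ℤ) ^ i • d i (w - s j u) =
            (-1 : ℤ) ^ i • d i w - (-1 : ℤ) ^ i • d i (s j u) := by
          intro i _
          rw [map_sub, smul_sub]
        rw [Finset.sum_congr rfl e5, Finset.sum_sub_distrib, hz, sub_zero]
  obtain ⟨w, hw, hd, hx2⟩ := key (k + 1) le_rfl
  rw [Finset.sum_range_succ, Finset.sum_eq_zero, zero_add] at hx2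
  · refine ⟨(-1 : ℤ) ^ (k + 1) • w, S.zsmul_mem hw _, ?_, ?_⟩
    · intro i hi
      rw [map_zsmul, hd i (by omega), smul_zero]
    · rw [map_zsmul, hx2]
  · intro i hi
    rw [hd i (Finset.mem_range.1 hi), smul_zero]

end Abstract

section Fin

theorem val_succAbove {n : ℕ} (p : Fin (n + 1)) (a : Fin n) :
    (p.succAbove a : ℕ) = if (a : ℕ) < p then (a : ℕ) else a + 1 := by
  simp only [Fin.succAbove, Fin.lt_def, Fin.val_castSucc]
  split_ifs <;> simp

theorem val_predAbove {n : ℕ} (p : Fin n) (b : Fin (n + 1)) :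
    (p.predAbove b : ℕ) = if (p : ℕ) < b then (b : ℕ) - 1 else b := by
  simp only [Fin.predAbove, Fin.lt_def, Fin.val_castSucc]
  split_ifs <;> simp

end Fin

section Simp

theorem cf_coe {n : ℕ} (i : Fin (n + 1)) (x : Dl n) :
    cf i x = stdSimplex.map (Fin.succAbove i) x := rfl

theorem sg_coe {n : ℕ} (i : Fin n) (x : Dl (n + 1)) :
    sg i x = stdSimplex.map (Fin.predAbove i) x := rfl

theorem sg_cf_self {n : ℕ} (j : ℕ) (h : j < n + 1) (x : Dl (n + 1)) :
    sg (⟨j, h⟩ : Fin (n + 1)) (cf (⟨j, by omega⟩ : Fin (n + 2)) x) = x := by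
  rw [sg_coe, cf_coe, stdSimplex.map_comp_apply]
  have : (Fin.predAbove (⟨j, h⟩ : Fin (n + 1))) ∘ (Fin.succAbove (⟨j, by omega⟩ : Fin (n + 2))) =
      id := by
    funext a
    ext
    simp only [Function.comp_apply, id, val_predAbove, val_succAbove]
    split_ifs <;> omega
  rw [this, stdSimplex.map_id_apply]

theorem sg_cf_succ {n : ℕ} (j : ℕ) (h : j < n + 1) (x : Dl (n + 1)) :
    sg (⟨j, h⟩ : Fin (n + 1)) (cf (⟨j + 1, by omega⟩ : Fin (n + 2)) x) = x := by
  rw [sg_coe, cf_coe, stdSimplex.map_comp_apply]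
  have : (Fin.predAbove (⟨j, h⟩ : Fin (n + 1))) ∘
      (Fin.succAbove (⟨j + 1, by omega⟩ : Fin (n + 2))) = id := by
    funext a
    ext
    simp only [Function.comp_apply, id, val_predAbove, val_succAbove]
    split_ifs <;> omega
  rw [this, stdSimplex.map_id_apply]

theorem sg_cf_lt {n : ℕ} (i j : ℕ) (hij : i < j) (h : j < n + 1) (x : Dl (n + 1)) :
    sg (⟨j, h⟩ : Fin (n + 1)) (cf (⟨i, by omega⟩ : Fin (n + 2)) x) =
      cf (⟨i, by omega⟩ : Fin (n + 1)) (sg (⟨j - 1, by omega⟩ : Fin n) x) := by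
  rw [sg_coe, cf_coe, sg_coe, cf_coe, stdSimplex.map_comp_apply, stdSimplex.map_comp_apply]
  have : (Fin.predAbove (⟨j, h⟩ : Fin (n + 1))) ∘ (Fin.succAbove (⟨i, by omega⟩ : Fin (n + 2))) =
      (Fin.succAbove (⟨i, by omega⟩ : Fin (n + 1))) ∘
        (Fin.predAbove (⟨j - 1, by omega⟩ : Fin n)) := by
    funext a
    ext
    simp only [Function.comp_apply, val_predAbove, val_succAbove]
    split_ifs <;> omega
  rw [this]

theorem sg_cf_gt {n : ℕ} (i j : ℕ) (hij : j < i) (h : i < n + 1) (x : Dl (n + 1)) :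
    sg (⟨j, by omega⟩ : Fin (n + 1)) (cf (⟨i + 1, by omega⟩ : Fin (n + 2)) x) =
      cf (⟨i, h⟩ : Fin (n + 1)) (sg (⟨j, by omega⟩ : Fin n) x) := by
  rw [sg_coe, cf_coe, sg_coe, cf_coe, stdSimplex.map_comp_apply, stdSimplex.map_comp_apply]
  have : (Fin.predAbove (⟨j, by omega⟩ : Fin (n + 1))) ∘
      (Fin.succAbove (⟨i + 1, by omega⟩ : Fin (n + 2))) =
      (Fin.succAbove (⟨i, h⟩ : Fin (n + 1))) ∘ (Fin.predAbove (⟨j, by omega⟩ : Fin n)) := by
    funext a
    ext
    simp only [Function.comp_apply, val_predAbove, val_succAbove]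
    split_ifs <;> omega
  rw [this]

end Simp

/-- precomposition as a homomorphism -/
def pc {G A B : Type} [AddCommGroup G] (f : A → B) : (B → G) →+ (A → G) where
  toFun u := u ∘ f
  map_zero' := rfl
  map_add' _ _ := rfl

theorem pc_apply {G A B : Type} [AddCommGroup G] (f : A → B) (u : B → G) : pc f u = u ∘ f := rfl

/-- MN -/
theorem mn : T_MN := by
  intro G _ S hd hs k x w hx hw hx0 hxw
  let d : ℕ → (Dl (k + 2) → G) →+ (Dl (k + 1) → G) := fun i =>
    if h : i < k + 2 then pc (cf (⟨i, h⟩ : Fin (k + 2))) else 0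
  let d' : ℕ → (Dl (k + 1) → G) →+ (Dl k → G) := fun i =>
    if h : i < k + 1 then pc (cf (⟨i, h⟩ : Fin (k + 1))) else 0
  let s : ℕ → (Dl (k + 1) → G) →+ (Dl (k + 2) → G) := fun j =>
    if h : j < k + 1 then pc (sg (⟨j, h⟩ : Fin (k + 1))) else 0
  let s' : ℕ → (Dl k → G) →+ (Dl (k + 1) → G) := fun j =>
    if h : j < k then pc (sg (⟨j, h⟩ : Fin k)) else 0
  have ed : ∀ i (h : i < k + 2) u, d i u = u ∘ cf (⟨i, h⟩ : Fin (k + 2)) := by
    intro i h u
    simp only [d, dif_pos h, pc_apply]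
  have ed' : ∀ i (h : i < k + 1) u, d' i u = u ∘ cf (⟨i, h⟩ : Fin (k + 1)) := by
    intro i h u
    simp only [d', dif_pos h, pc_apply]
  have es : ∀ j (h : j < k + 1) u, s j u = u ∘ sg (⟨j, h⟩ : Fin (k + 1)) := by
    intro i h u
    simp only [s, dif_pos h, pc_apply]
  have es' : ∀ j (h : j < k) u, s' j u = u ∘ sg (⟨j, h⟩ : Fin k) := by
    intro i h u
    simp only [s', dif_pos h, pc_apply]
  have c1 : ∀ i j, i ≤ j → j ≤ k → ∀ w, d' i (d (j + 1) w) = d' j (d i w) := by
    intro i j hij hj w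
    rw [ed (j + 1) (by omega), ed i (by omega), ed' i (by omega), ed' j (by omega)]
    funext t
    simp only [Function.comp_apply]
    have h1 := cf_comp_cf (⟨i, by omega⟩ : Fin (k + 1)) (⟨j, by omega⟩ : Fin (k + 1)) hij
    have h2 := DFunLike.congr_fun h1 t
    simp only [ContinuousMap.comp_apply] at h2
    exact congrArg w h2
  have c2 : ∀ j, j ≤ k → ∀ u, d j (s j u) = u ∧ d (j + 1) (s j u) = u := by
    intro j hj u
    rw [ed j (by omega), ed (j + 1) (by omega), es j (by omega)]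
    constructor
    · funext t
      simp only [Function.comp_apply]
      rw [sg_cf_self]
    · funext t
      simp only [Function.comp_apply]
      rw [sg_cf_succ]
  have c3 : ∀ i j, i < j → j ≤ k → ∀ u, d i (s j u) = s' (j - 1) (d' i u) := by
    intro i j hij hj u
    rw [ed i (by omega), es j (by omega), es' (j - 1) (by omega), ed' i (by omega)]
    funext t
    simp only [Function.comp_apply]
    rw [sg_cf_lt i j hij (by omega)]
  have c4 : ∀ i j, j < i → i ≤ k → ∀ u, d (i + 1) (s j u) = s' j (d' i u) := by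
    intro i j hij hi u
    rw [ed (i + 1) (by omega), es j (by omega), es' j (by omega), ed' i (by omega)]
    funext t
    simp only [Function.comp_apply]
    rw [sg_cf_gt i j hij (by omega)]
  have c5 : ∀ j, j ≤ k → ∀ w ∈ S (k + 2), s j (d j w) ∈ S (k + 2) := by
    intro j hj w hw
    rw [es j (by omega), ed j (by omega)]
    exact hs _ _ _ (hd _ _ _ hw)
  have c6 : ∀ i, i ≤ k → d' i x = 0 := by
    intro i hi
    rw [ed' i (by omega)]
    exact hx0 _
  have c7 : x = ∑ i ∈ Finset.range (k + 2), (-1 : ℤ) ^ i • d i w := by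
    rw [hxw, Finset.sum_range]
    refine Finset.sum_congr rfl fun i _ => ?_
    rw [ed i i.2]
  obtain ⟨y, hy, hy0, hyl⟩ := norm k d d' s s' c1 c2 c3 c4 (S (k + 2)) c5 x w c6 hw c7
  refine ⟨y, hy, ?_, ?_⟩
  · intro i
    have h1 := hy0 i (by omega)
    rw [ed i (by omega)] at h1
    exact h1
  · rw [ed (k + 1) (by omega)] at hyl
    exact hyl

end Pool.Agent.H29.SP.MN
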