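import Pool.Agent.H93.SP.Targets

/-!
# SPAN: generation of the homology of powers
-/

namespace Pool.Agent.H29.SP.SPAN

open Pool.Agent.H93.SPB Pool.Agent.H59 Pool.Agent.H64.LB

section
variable {Y B : Type} [TopologicalSpace Y] [TopologicalSpace B] {m : ℕ} (v : Fin m → C(B, Y))

/-- product of the maps `v (c i)` -/
def WW {N : ℕ} (c : Fin N → Fin m) : C(Fin N → B, Fin N → Y) :=
  ⟨fun (w : Fin N → B) i => v (c i) (w i), by fun_prop⟩

/-- the submodule generated by the images -/
noncomputable def SS (N : ℕ) (Z : Type) [TopologicalSpace Z] (q : ℕ) :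
    Submodule ℚ (HH ℚ q (Z × (Fin N → Y))) :=
  ⨆ c : Fin N → Fin m, LinearMap.range (HH.map ℚ q (zm Z (WW v c)))

theorem continuous_cons (N : ℕ) (X : Type) [TopologicalSpace X] :
    Continuous fun p : X × (Fin N → X) => (Fin.cons p.1 p.2 : Fin (N + 1) → X) := by
  refine continuous_pi fun i => ?_
  refine Fin.cases ?_ (fun j => ?_) i
  · simpa using continuous_fst
  · exact (continuous_apply j).comp continuous_snd

theorem mem_SS (hv : ∀ (Z : Type) [TopologicalSpace Z] (q : ℕ) (x : HH ℚ q (Z × Y)),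
    ∃ y : Fin m → HH ℚ q (Z × B), x = ∑ i, HH.map ℚ q (zm Z (v i)) (y i)) (N : ℕ) :
    ∀ (Z : Type) [TopologicalSpace Z] (q : ℕ) (x : HH ℚ q (Z × (Fin N → Y))),
      x ∈ SS v N Z q := by
  induction N with
  | zero =>
    intro Z _ q x
    let g : C(Z × (Fin 0 → Y), Z × (Fin 0 → B)) :=
      ⟨fun p => (p.1, fun i => i.elim0), by fun_prop⟩
    let c : Fin 0 → Fin m := fun i => i.elim0
    have h1 : (zm Z (WW v c)).comp g = ContinuousMap.id _ := by
      ext1 p
      refine Prod.ext rfl ?_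
      funext i
      exact i.elim0
    have h2 : x = HH.map ℚ q (zm Z (WW v c)) (HH.map ℚ q g x) := by
      rw [← HH.map_comp, h1, HH.map_id]
    rw [h2]
    exact Submodule.mem_iSup_of_mem c ⟨_, rfl⟩
  | succ N ih =>
    intro Z _ q x
    let e : C(Z × (Fin (N + 1) → Y), (Z × (Fin N → Y)) × Y) :=
      ⟨fun p => ((p.1, fun i => p.2 i.succ), p.2 0), by fun_prop⟩
    let e' : C((Z × (Fin N → Y)) × Y, Z × (Fin (N + 1) → Y)) :=
      ⟨fun p => (p.1.1, Fin.cons p.2 p.1.2),
        (continuous_fst.comp continuous_fst).prodMk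
          ((continuous_cons N Y).comp (continuous_snd.prodMk
            (continuous_snd.comp continuous_fst)))⟩
    have he : e'.comp e = ContinuousMap.id _ := by
      ext1 p
      refine Prod.ext rfl ?_
      exact Fin.cons_self_tail p.2
    obtain ⟨y, hy⟩ := hv (Z × (Fin N → Y)) q (HH.map ℚ q e x)
    have hx : x = ∑ i, HH.map ℚ q (e'.comp (zm (Z × (Fin N → Y)) (v i))) (y i) := by
      have h1 : x = HH.map ℚ q e' (HH.map ℚ q e x) := by
        rw [← HH.map_comp, he, HH.map_id]
      rw [h1, hy, map_sum]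
      exact Finset.sum_congr rfl fun i _ => (HH.map_comp ℚ q _ _ _).symm
    rw [hx]
    refine Submodule.sum_mem _ fun i _ => ?_
    let f : C((Z × (Fin N → Y)) × B, (Z × B) × (Fin N → Y)) :=
      ⟨fun p => ((p.1.1, p.2), p.1.2), by fun_prop⟩
    let f' : C((Z × B) × (Fin N → Y), (Z × (Fin N → Y)) × B) :=
      ⟨fun p => ((p.1.1, p.2), p.1.2), by fun_prop⟩
    have hf : f'.comp f = ContinuousMap.id _ := by
      ext1 p
      rfl
    have h1 : HH.map ℚ q (e'.comp (zm (Z × (Fin N → Y)) (v i))) (y i) =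
        HH.map ℚ q ((e'.comp (zm (Z × (Fin N → Y)) (v i))).comp f') (HH.map ℚ q f (y i)) := by
      rw [← HH.map_comp, ContinuousMap.comp_assoc, hf, ContinuousMap.comp_id]
    rw [h1]
    have h2 : SS v N (Z × B) q ≤ (SS v (N + 1) Z q).comap
        (HH.map ℚ q ((e'.comp (zm (Z × (Fin N → Y)) (v i))).comp f')) := by
      refine iSup_le fun c => ?_
      rintro _ ⟨t, rfl⟩
      rw [Submodule.mem_comap]
      let h : C((Z × B) × (Fin N → B), Z × (Fin (N + 1) → B)) :=
        ⟨fun p => (p.1.1, Fin.cons p.1.2 p.2),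
          (continuous_fst.comp continuous_fst).prodMk
            ((continuous_cons N B).comp ((continuous_snd.comp continuous_fst).prodMk
              continuous_snd))⟩
      have h3 : ((e'.comp (zm (Z × (Fin N → Y)) (v i))).comp f').comp (zm (Z × B) (WW v c)) =
          (zm Z (WW v (Fin.cons i c : Fin (N + 1) → Fin m))).comp h := by
        ext1 p
        refine Prod.ext rfl ?_
        funext j
        refine Fin.cases rfl (fun j => rfl) j
      rw [← HH.map_comp, h3, HH.map_comp]
      exact Submodule.mem_iSup_of_mem _ ⟨_, rfl⟩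
    exact h2 (ih (Z × B) q _)

end

/-- SPAN -/
theorem span : T_SPAN := by
  classical
  intro Y B _ _ m v hv N q x
  let g : C(Fin N → Y, PUnit.{1} × (Fin N → Y)) := ⟨fun w => (PUnit.unit, w), by fun_prop⟩
  let g' : C(PUnit.{1} × (Fin N → Y), Fin N → Y) := ⟨fun p => p.2, by fun_prop⟩
  let h : C(PUnit.{1} × (Fin N → B), Fin N → B) := ⟨fun p => p.2, by fun_prop⟩
  have hg : g'.comp g = ContinuousMap.id _ := by
    ext1 p
    rfl
  have hx : x = HH.map ℚ q g' (HH.map ℚ q g x) := by
    rw [← HH.map_comp, hg, HH.map_id]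
  have h1 := mem_SS v hv N PUnit.{1} q (HH.map ℚ q g x)
  rw [SS, Submodule.mem_iSup_iff_exists_finsupp] at h1
  obtain ⟨F, hF, hsum⟩ := h1
  choose t ht using hF
  refine ⟨fun c => HH.map ℚ q h (t c), ?_⟩
  have h2 : HH.map ℚ q g x = ∑ c, F c := by
    rw [← hsum, Finsupp.sum]
    exact Finset.sum_subset (Finset.subset_univ _) fun c _ hc => Finsupp.notMem_support_iff.1 hc
  rw [hx, h2, map_sum]
  refine Finset.sum_congr rfl fun c _ => ?_
  rw [← ht c, ← HH.map_comp, ← HH.map_comp]
  rfl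

end Pool.Agent.H29.SP.SPAN
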