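import Pool.Agent.H93.SP.Targets

/-!
# TRB1: basic open sets have the transfer property
-/

namespace Pool.Agent.H29.SP.TRB1

open Topology Set
open scoped unitInterval
open Pool.Agent.H93.SPB Pool.Agent.H59 Pool.Agent.H64.LB

section
variable {V Q : Type} [NormedAddCommGroup V] [NormedSpace ℝ V] [TopologicalSpace Q]
  (a : GA V Q) (O : Set Q)

set_option linter.unusedSectionVars false

theorem act_inv (g : a.G) (v : V) : a.act g⁻¹ (a.act g v) = v := by
  have h := a.act_mul g⁻¹ g
  rw [inv_mul_cancel, a.act_one] at h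
  exact (DFunLike.congr_fun h v).symm

theorem act_mul' (g h : a.G) (v : V) : a.act (g * h) v = a.act g (a.act h v) :=
  DFunLike.congr_fun (a.act_mul g h) v

theorem ac_coe (g : a.G) (v : a.p ⁻¹' O) : ((a.ac g O v : a.p ⁻¹' O) : V) = a.act g v := rfl

/-- members of the decomposition -/
theorem exists_kk (K : Set (Set V)) (hU : ⋃₀ K = a.p ⁻¹' O) :
    ∃ kk : (a.p ⁻¹' O) → Set V, ∀ v, kk v ∈ K ∧ (v : V) ∈ kk v := by
  have : ∀ v : a.p ⁻¹' O, ∃ k ∈ K, (v : V) ∈ k := by
    intro v
    have h : (v : V) ∈ ⋃₀ K := by rw [hU]; exact v.2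
    exact h
  choose kk h1 h2 using this
  exact ⟨kk, fun v => ⟨h1 v, h2 v⟩⟩

theorem eq_of_mem {K : Set (Set V)} (hd : K.PairwiseDisjoint id) {k k' : Set V} (hk : k ∈ K)
    (hk' : k' ∈ K) {v : V} (h : v ∈ k) (h' : v ∈ k') : k = k' := by
  by_contra hne
  exact Set.disjoint_left.1 (hd hk hk' hne) h h'

/-- a preconnected subset of the preimage meeting a member is contained in it -/
theorem subset_member {K : Set (Set V)} (hop : ∀ k ∈ K, IsOpen k) (hd : K.PairwiseDisjoint id)
    {k : Set V} (hk : k ∈ K) {C : Set V} (hC : IsPreconnected C) (hCK : C ⊆ ⋃₀ K) {v : V}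
    (hv : v ∈ C) (hvk : v ∈ k) : C ⊆ k := by
  refine IsPreconnected.subset_left_of_subset_union (u := k) (v := ⋃₀ (K \ {k})) (hop k hk)
    (isOpen_sUnion fun t ht => hop t ht.1) ?_ ?_ ⟨v, hv, hvk⟩ hC
  · rw [Set.disjoint_sUnion_right]
    intro t ht
    exact hd hk ht.1 (fun h => ht.2 h.symm)
  · intro w hw
    obtain ⟨t, ht, hwt⟩ := hCK hw
    by_cases htk : t = k
    · left; rw [← htk]; exact hwt
    · right; exact ⟨t, ⟨ht, htk⟩, hwt⟩

/-- the equivariant homotopy to a locally constant map -/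
theorem exists_homotopy (hL : a.Lin) (K : Set (Set V)) (hop : ∀ k ∈ K, IsOpen k)
    (hcv : ∀ k ∈ K, Convex ℝ k) (hd : K.PairwiseDisjoint id) (hU : ⋃₀ K = a.p ⁻¹' O) :
    ∃ H : C(I × (a.p ⁻¹' O), a.p ⁻¹' O), (∀ v, H (0, v) = v) ∧
      IsLocallyConstant (fun v => H (1, v)) ∧
      (∀ g t v, H (t, a.ac g O v) = a.ac g O (H (t, v))) := by
  classical
  obtain ⟨kk, hkk⟩ := exists_kk a O K hU
  -- chosen points
  let pt : Set V → V := fun k => if h : k.Nonempty then h.some else 0
  have hpt : ∀ k, k.Nonempty → pt k ∈ k := by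
    intro k h
    simp only [pt, dif_pos h]
    exact h.some_mem
  let r : (a.p ⁻¹' O) → V := fun v =>
    ∑ g : a.G, ((Fintype.card a.G : ℝ)⁻¹) • a.act g⁻¹ (pt (kk (a.ac g O v)))
  have hcard : (Fintype.card a.G : ℝ) ≠ 0 := by
    exact_mod_cast Fintype.card_ne_zero
  -- locally constant
  have hlc : ∀ v, ∃ U : Set (a.p ⁻¹' O), IsOpen U ∧ v ∈ U ∧ ∀ y ∈ U, r y = r v := by
    intro v
    refine ⟨⋂ g : a.G, (a.ac g O) ⁻¹' (Subtype.val ⁻¹' (kk (a.ac g O v))), ?_, ?_, ?_⟩
    · refine isOpen_iInter_of_finite fun g => ?_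
      exact ((hop _ (hkk _).1).preimage continuous_subtype_val).preimage (a.ac g O).continuous
    · rw [Set.mem_iInter]
      intro g
      exact (hkk (a.ac g O v)).2
    · intro y hy
      rw [Set.mem_iInter] at hy
      refine Finset.sum_congr rfl fun g _ => ?_
      have h1 : kk (a.ac g O y) = kk (a.ac g O v) :=
        eq_of_mem hd (hkk _).1 (hkk _).1 (hkk (a.ac g O y)).2 (hy g)
      rw [h1]
  have hrl : IsLocallyConstant r := (IsLocallyConstant.iff_exists_open r).2 hlc
  -- in the member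
  have hrk : ∀ v, r v ∈ kk v := by
    intro v
    refine Convex.sum_mem (hcv _ (hkk v).1) (fun g _ => by positivity) ?_ fun g _ => ?_
    · rw [Finset.sum_const, Finset.card_univ, nsmul_eq_mul, mul_inv_cancel₀ hcard]
    · have hC : IsPreconnected (a.act g⁻¹ '' (kk (a.ac g O v))) :=
        ((hcv _ (hkk _).1).isPreconnected).image _ (a.act g⁻¹).continuous.continuousOn
      refine subset_member hop hd (hkk v).1 hC ?_ (v := v) ?_ (hkk v).2 ?_
      · rintro _ ⟨w, hw, rfl⟩
        rw [hU]
        change a.p (a.act g⁻¹ w) ∈ O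
        rw [a.p_act]
        have : w ∈ ⋃₀ K := ⟨_, (hkk (a.ac g O v)).1, hw⟩
        rw [hU] at this
        exact this
      · exact ⟨a.act g v, (hkk (a.ac g O v)).2, act_inv a g v⟩
      · exact ⟨_, hpt _ ⟨_, (hkk (a.ac g O v)).2⟩, rfl⟩
  -- additivity of the action
  have hsum : ∀ (h : a.G) (f : a.G → V), a.act h (∑ g, f g) = ∑ g, a.act h (f g) := by
    intro h f
    let A : V →+ V :=
      { toFun := a.act h
        map_zero' := by
          have := hL.smul h 0 0
          rwa [zero_smul, zero_smul] at this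
        map_add' := hL.add h }
    exact map_sum A f Finset.univ
  have hreq : ∀ h v, r (a.ac h O v) = a.act h (r v) := by
    intro h v
    rw [hsum]
    refine Fintype.sum_equiv (Equiv.mulRight h) _ _ fun g => ?_
    have h1 : a.ac g O (a.ac h O v) = a.ac (g * h) O v := by
      apply Subtype.ext
      rw [ac_coe, ac_coe, ac_coe, act_mul']
    rw [h1, hL.smul, ← act_mul']
    simp only [Equiv.coe_mulRight, mul_inv_rev, mul_inv_cancel_left]
  have hmem : ∀ (t : I) (v : a.p ⁻¹' O), (1 - (t : ℝ)) • (v : V) + (t : ℝ) • r v ∈ a.p ⁻¹' O := by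
    intro t v
    have h : (1 - (t : ℝ)) • (v : V) + (t : ℝ) • r v ∈ ⋃₀ K :=
      ⟨kk v, (hkk v).1, (hcv _ (hkk v).1) (hkk v).2 (hrk v) (by linarith [t.2.2]) t.2.1
        (by ring)⟩
    rwa [hU] at h
  refine ⟨⟨fun x => ⟨_, hmem x.1 x.2⟩, ?_⟩, ?_, ?_, ?_⟩
  · refine Continuous.subtype_mk ?_ _
    have h1 : Continuous fun x : I × (a.p ⁻¹' O) => r x.2 := hrl.continuous.comp continuous_snd
    exact ((continuous_const.sub (continuous_subtype_val.comp continuous_fst)).smul
      (continuous_subtype_val.comp continuous_snd)).add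
      ((continuous_subtype_val.comp continuous_fst).smul h1)
  · intro v
    apply Subtype.ext
    change (1 - ((0 : I) : ℝ)) • (v : V) + ((0 : I) : ℝ) • r v = v
    simp
  · rw [IsLocallyConstant.iff_exists_open]
    intro v
    obtain ⟨U, hU1, hU2, hU3⟩ := hlc v
    refine ⟨U, hU1, hU2, fun y hy => ?_⟩
    apply Subtype.ext
    change (1 - ((1 : I) : ℝ)) • (y : V) + ((1 : I) : ℝ) • r y =
      (1 - ((1 : I) : ℝ)) • (v : V) + ((1 : I) : ℝ) • r v
    simp [hU3 y hy]
  · intro g t v
    apply Subtype.ext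
    change (1 - (t : ℝ)) • a.act g (v : V) + (t : ℝ) • r (a.ac g O v) =
      a.act g ((1 - (t : ℝ)) • (v : V) + (t : ℝ) • r v)
    rw [hL.add, hL.smul, hL.smul, hreq]

end

/-- TRB1 -/
theorem trb1 (hLC : T_LC0) (hH0 : T_H0) : T_TRB1 := by
  classical
  intro V Q _ _ _ a hL O hB
  obtain ⟨-, K, hfin, hK, hd, hU⟩ := hB
  have hop : ∀ k ∈ K, IsOpen k := fun k hk => (hK k hk).1
  have hcv : ∀ k ∈ K, Convex ℝ k := fun k hk => (hK k hk).2.1
  obtain ⟨H, hH0', hH1, hHe⟩ := exists_homotopy a O hL K hop hcv hd hU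
  obtain ⟨hspan, hjoin, hlin, hnat⟩ := hH0
  -- the projection
  have hprs : Function.Surjective (a.pr O) := by
    rintro ⟨o, ho⟩
    obtain ⟨v, rfl⟩ := hL.surj o
    exact ⟨⟨v, ho⟩, rfl⟩
  have hpro : IsOpenMap (a.pr O) := hL.isOpenMap.restrictPreimage O
  have hprq : IsQuotientMap (a.pr O) := hpro.isQuotientMap (a.pr O).continuous hprs
  have hprac : ∀ g v, a.pr O (a.ac g O v) = a.pr O v := by
    intro g v
    apply Subtype.ext
    exact a.p_act g v
  have hfib : ∀ v w, a.pr O v = a.pr O w → ∃ g, w = a.ac g O v := by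
    intro v w h
    obtain ⟨g, hg⟩ := hL.fib v w (congrArg Subtype.val h)
    exact ⟨g, Subtype.ext hg⟩
  -- positive degrees upstairs
  have hP : ∀ q, Subsingleton (HH ℚ (q + 1) (a.p ⁻¹' O)) := by
    let r : C(a.p ⁻¹' O, a.p ⁻¹' O) := ⟨fun v => H (1, v), by fun_prop⟩
    refine hLC _ r hH1 ⟨⟨⟨fun x => H x, by fun_prop⟩, ?_, ?_⟩⟩
    · intro v; exact hH0' v
    · intro v; rfl
  -- positive degrees downstairs
  have hO : ∀ q, Subsingleton (HH ℚ (q + 1) O) := by
    let F : C(I × (a.p ⁻¹' O), I × O) := (ContinuousMap.id I).prodMap (a.pr O)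
    have hFq : IsQuotientMap F := by
      refine IsOpenMap.isQuotientMap ?_ F.continuous ?_
      · exact IsOpenMap.id.prodMap hpro
      · exact Function.surjective_id.prodMap hprs
    have hcomp : Function.FactorsThrough (((a.pr O).comp H) : C(I × (a.p ⁻¹' O), O)) F := by
      rintro ⟨t, v⟩ ⟨t', w⟩ h
      have h1 : t = t' := congrArg Prod.fst h
      have h2 : a.pr O v = a.pr O w := congrArg Prod.snd h
      obtain ⟨g, rfl⟩ := hfib v w h2
      subst h1
      change a.pr O (H (t, v)) = a.pr O (H (t, a.ac g O v))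
      rw [hHe, hprac]
    let HO : C(I × O, O) := hFq.lift ((a.pr O).comp H) hcomp
    have hHO : ∀ t v, HO (t, a.pr O v) = a.pr O (H (t, v)) := by
      intro t v
      have := DFunLike.congr_fun (hFq.lift_comp ((a.pr O).comp H) hcomp) (t, v)
      exact this
    let rO : C(O, O) := ⟨fun o => HO (1, o), by fun_prop⟩
    have hrO : IsLocallyConstant rO := by
      intro s
      rw [← hprq.isOpen_preimage]
      have h1 : (a.pr O) ⁻¹' (rO ⁻¹' s) = (fun v => a.pr O (H (1, v))) ⁻¹' s := by
        ext v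
        change HO (1, a.pr O v) ∈ s ↔ a.pr O (H (1, v)) ∈ s
        rw [hHO]
      rw [h1]
      exact (hH1.comp (a.pr O)) s
    refine hLC _ rO hrO ⟨⟨⟨fun x => HO x, by fun_prop⟩, ?_, ?_⟩⟩
    · intro o
      obtain ⟨v, rfl⟩ := hprs o
      change HO (0, a.pr O v) = a.pr O v
      rw [hHO, hH0']
    · intro o; rfl
  intro q
  cases q with
  | succ q =>
    have := hP q
    have := hO q
    exact ⟨fun z => ⟨0, Subsingleton.elim _ _⟩, fun x _ => Subsingleton.elim _ _⟩
  | zero =>
    constructor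
    · intro z
      have h1 : LinearMap.range (HH.map ℚ 0 (a.pr O)) = ⊤ := by
        rw [eq_top_iff, ← hspan O, Submodule.span_le]
        rintro _ ⟨o, rfl⟩
        obtain ⟨v, rfl⟩ := hprs o
        exact ⟨ptc v, hnat _ _ _ _⟩
      have h2 : z ∈ LinearMap.range (HH.map ℚ 0 (a.pr O)) := by rw [h1]; trivial
      exact h2
    · intro x hx
      -- detection by locally constant functions
      have hdet : ∀ y : HH ℚ 0 (a.p ⁻¹' O),
          (∀ (φ : (a.p ⁻¹' O) → ℚ), IsLocallyConstant φ → ∀ L : HH ℚ 0 (a.p ⁻¹' O) →ₗ[ℚ] ℚ,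
            (∀ v, L (ptc v) = φ v) → L y = 0) → y = 0 := by
        intro y hy
        have : Fintype K := hfin.fintype
        have hne : ∀ k : K, (k : Set V).Nonempty := fun k => (hK k k.2).2.2
        have hmemP : ∀ (k : K) (v : V), v ∈ (k : Set V) → v ∈ a.p ⁻¹' O := by
          intro k v hv
          rw [← hU]
          exact ⟨k, k.2, hv⟩
        let pp : K → (a.p ⁻¹' O) := fun k => ⟨(hne k).some, hmemP k _ (hne k).some_mem⟩
        have hy1 : y ∈ Submodule.span ℚ (range fun k : K => (ptc (pp k) : HH ℚ 0 (a.p ⁻¹' O))) := by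
          have h1 : Submodule.span ℚ (range fun k : K => (ptc (pp k) : HH ℚ 0 (a.p ⁻¹' O))) =
              ⊤ := by
            rw [eq_top_iff, ← hspan (a.p ⁻¹' O), Submodule.span_le]
            rintro _ ⟨v, rfl⟩
            have hv : (v : V) ∈ ⋃₀ K := by rw [hU]; exact v.2
            obtain ⟨k, hk, hvk⟩ := hv
            refine Submodule.subset_span ⟨⟨k, hk⟩, ?_⟩
            refine hjoin _ _ _ ?_
            -- segment
            have hseg : ∀ t : I, (1 - (t : ℝ)) • (pp ⟨k, hk⟩ : V) + (t : ℝ) • (v : V) ∈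
                a.p ⁻¹' O := by
              intro t
              exact hmemP ⟨k, hk⟩ _ ((hcv k hk) (hne ⟨k, hk⟩).some_mem hvk
                (by linarith [t.2.2]) t.2.1 (by ring))
            refine ⟨⟨⟨fun t => ⟨_, hseg t⟩, ?_⟩, ?_, ?_⟩⟩
            · refine Continuous.subtype_mk ?_ _
              fun_prop
            · apply Subtype.ext
              simp
            · apply Subtype.ext
              simp
          rw [h1]; trivial
        obtain ⟨c, hc⟩ := (Submodule.mem_span_range_iff_exists_fun ℚ).1 hy1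
        rw [← hc]
        refine Finset.sum_eq_zero fun k0 _ => ?_
        -- indicator
        let φ : (a.p ⁻¹' O) → ℚ := fun v => if (v : V) ∈ (k0 : Set V) then 1 else 0
        have hφ : IsLocallyConstant φ := by
          rw [IsLocallyConstant.iff_exists_open]
          intro v
          have hv : (v : V) ∈ ⋃₀ K := by rw [hU]; exact v.2
          obtain ⟨k, hk, hvk⟩ := hv
          refine ⟨Subtype.val ⁻¹' k, (hop k hk).preimage continuous_subtype_val, hvk, ?_⟩
          intro w hw
          by_cases hkk : k = k0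
          · have h1 : (w : V) ∈ (k0 : Set V) := by rw [← hkk]; exact hw
            have h2 : (v : V) ∈ (k0 : Set V) := by rw [← hkk]; exact hvk
            simp only [φ, if_pos h1, if_pos h2]
          · have h1 : (w : V) ∉ (k0 : Set V) := fun h => hkk (eq_of_mem hd hk k0.2 hw h)
            have h2 : (v : V) ∉ (k0 : Set V) := fun h => hkk (eq_of_mem hd hk k0.2 hvk h)
            simp only [φ, if_neg h1, if_neg h2]
        obtain ⟨L, hLφ⟩ := hlin _ φ hφ
        have h1 := hy φ hφ L hLφ
        rw [← hc, map_sum, Finset.sum_eq_single k0] at h1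
        · rw [map_smul, hLφ] at h1
          have h2 : φ (pp k0) = 1 := if_pos (hne k0).some_mem
          rw [h2, smul_eq_mul, mul_one] at h1
          rw [h1, zero_smul]
        · intro k _ hk
          rw [map_smul, hLφ]
          have h2 : φ (pp k) = 0 := by
            refine if_neg fun h => hk ?_
            exact Subtype.ext (eq_of_mem hd k.2 k0.2 (hne k).some_mem h)
          rw [h2, smul_zero]
        · intro h
          exact absurd (Finset.mem_univ _) h
      apply hdet
      intro φ hφ L hLφ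
      -- the averaged function
      let ψ : (a.p ⁻¹' O) → ℚ := fun v => ∑ g : a.G, φ (a.ac g O v)
      have hψinv : ∀ h v, ψ (a.ac h O v) = ψ v := by
        intro h v
        refine Fintype.sum_equiv (Equiv.mulRight h) _ _ fun g => ?_
        have h1 : a.ac g O (a.ac h O v) = a.ac (g * h) O v := by
          apply Subtype.ext
          rw [ac_coe, ac_coe, ac_coe, act_mul']
        rw [h1]
        rfl
      have hψ : IsLocallyConstant ψ := by
        rw [IsLocallyConstant.iff_exists_open]
        intro v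
        have h1 : ∀ g : a.G, ∃ U : Set (a.p ⁻¹' O), IsOpen U ∧ v ∈ U ∧
            ∀ y ∈ U, φ (a.ac g O y) = φ (a.ac g O v) := by
          intro g
          exact (IsLocallyConstant.iff_exists_open _).1
            (hφ.comp_continuous (a.ac g O).continuous) v
        choose U h2 h3 h4 using h1
        refine ⟨⋂ g, U g, isOpen_iInter_of_finite h2, Set.mem_iInter.2 h3, fun y hy => ?_⟩
        exact Finset.sum_congr rfl fun g _ => h4 g y (Set.mem_iInter.1 hy g)
      choose sec hsec using hprs
      let ψ' : O → ℚ := fun o => ψ (sec o)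
      have hψ'pr : ∀ v, ψ' (a.pr O v) = ψ v := by
        intro v
        obtain ⟨g, hg⟩ := hfib v (sec (a.pr O v)) (hsec _).symm
        change ψ (sec (a.pr O v)) = ψ v
        rw [hg, hψinv]
      have hψ' : IsLocallyConstant ψ' := by
        intro s
        rw [← hprq.isOpen_preimage]
        have h1 : (a.pr O) ⁻¹' (ψ' ⁻¹' s) = ψ ⁻¹' s := by
          ext v
          change ψ' (a.pr O v) ∈ s ↔ ψ v ∈ s
          rw [hψ'pr]
        rw [h1]
        exact hψ s
      obtain ⟨L', hL'⟩ := hlin _ ψ' hψ'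
      have hmaps : L ∘ₗ (∑ g : a.G, HH.map ℚ 0 (a.ac g O)) = L' ∘ₗ (HH.map ℚ 0 (a.pr O)) := by
        apply LinearMap.ext_on (hspan (a.p ⁻¹' O))
        rintro _ ⟨v, rfl⟩
        simp only [LinearMap.comp_apply, LinearMap.sum_apply, map_sum, hnat, hLφ, hL', hψ'pr]
        rfl
      have h1 := DFunLike.congr_fun hmaps x
      simp only [LinearMap.comp_apply, LinearMap.sum_apply, hx, map_zero] at h1
      exact h1

end Pool.Agent.H29.SP.TRB1
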